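import Pool.Agent.helper17.RX.Spec

/-!
# Row DRX of project RX (MP_f42afa_pr)
-/

set_option autoImplicit false

namespace TP.TW

open DP MeasureTheory Finset

private theorem DRX_mem (τ : ℤ × ℤ) (A : Finset V) (v : V) :
    v ∈ shf τ A ↔ (v.1 - τ.1, v.2 - τ.2) ∈ A := by
  unfold shf
  rw [Finset.mem_image]
  constructor
  · rintro ⟨u, hu, rfl⟩
    simpa using hu
  · intro h
    exact ⟨_, h, by simp⟩

theorem DRX (env : ENV_stmt) (shp : SHP_stmt) : DRX_stmt := by
  intro Ω S R hS hbr
  obtain ⟨hS0, hSm, hSa⟩ := hS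
  have : IsProbabilityMeasure P1 := by unfold P1; infer_instance
  have hdep : ∀ i β β', (∀ v ∈ Ω, β v = β' v) → S i β = S i β' := by
    intro i β β' h
    cases i with
    | zero => rw [hS0, hS0]
    | succ i => exact hSa i β β' fun v hv => h v ((hSm i β).2 hv)
  have hstop : ∀ i β β', (∀ v ∈ S i β, β v = β' v) → S i β = S i β' := by
    intro i β β' h
    cases i with
    | zero => rw [hS0, hS0]
    | succ i => exact hSa i β β' fun v hv => h v ((hSm i β).1 hv)
  have hmono : ∀ β, Monotone fun i => S i β :=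
    fun β => monotone_nat_of_le_succ fun i => (hSm i β).1
  refine ⟨hbr, fun β => (hSm (R + 1) β).2, ⟨Ω, hdep (R + 1)⟩, fun v => measureReal_nonneg, ?_,
    by positivity, ?_⟩
  · intro v hv
    have h0 : {β | v ∈ S (R + 1) β} = (∅ : Set (V → Bool)) := by
      ext β
      simp only [Set.mem_empty_iff_false, iff_false]
      exact fun h => hv ((hSm (R + 1) β).2 h)
    show Pr {β | v ∈ S (R + 1) β} = 0
    rw [h0]
    simp [Pr]
  · intro T U Λ z E hE hU
    set S' : V → ℕ → (V → Bool) → Finset V := fun τ i β =>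
      shf τ (S (min i (R + 1)) fun v => β (v.1 + τ.1, v.2 + τ.2)) with hS'
    have hmem : ∀ τ i β v, v ∈ S' τ i β ↔
        (v.1 - τ.1, v.2 - τ.2) ∈ S (min i (R + 1)) (fun u => β (u.1 + τ.1, u.2 + τ.2)) :=
      fun τ i β v => DRX_mem τ _ v
    have hR : ∀ τ ∈ T, Rnd (T.biUnion fun τ => shf τ Ω) (S' τ) := by
      intro τ hτ
      refine ⟨?_, ?_, ?_⟩
      · intro β
        show shf τ (S (min 0 (R + 1)) _) = ∅
        rw [Nat.zero_min, hS0]
        rfl
      · intro i β
        refine ⟨?_, ?_⟩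
        · intro v hv
          rw [hmem] at hv ⊢
          exact hmono _ (min_le_min_right _ (Nat.le_succ i)) hv
        · intro v hv
          rw [hmem] at hv
          rw [mem_biUnion]
          refine ⟨τ, hτ, ?_⟩
          rw [DRX_mem]
          exact (hSm _ _).2 hv
      · intro i β β' h
        show shf τ _ = shf τ _
        have h2 : ∀ v ∈ S (min i (R + 1)) (fun u => β (u.1 + τ.1, u.2 + τ.2)),
            β (v.1 + τ.1, v.2 + τ.2) = β' (v.1 + τ.1, v.2 + τ.2) := by
          intro v hv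
          apply h
          rw [hmem]
          simpa using hv
        have h3 : S (min (i + 1) (R + 1)) (fun u => β (u.1 + τ.1, u.2 + τ.2)) =
            S (min (i + 1) (R + 1)) (fun u => β' (u.1 + τ.1, u.2 + τ.2)) := by
          rcases Nat.lt_or_ge i (R + 1) with hi | hi
          · rw [min_eq_left hi.le] at h2
            rw [min_eq_left (by omega : i + 1 ≤ R + 1)]
            exact hSa i _ _ h2
          · rw [min_eq_right hi] at h2
            rw [min_eq_right (by omega : R + 1 ≤ i + 1)]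
            exact hstop _ _ _ h2
        rw [h3]
    have hN : ∀ i : ℕ, ∀ v ∈ insert z Λ, ∑ τ ∈ T, Pr {β | v ∈ S' τ i β} ≤
        ∑ v ∈ U, Pr {β | v ∈ S (R + 1) β} := by
      intro i v hv
      have h1 : ∀ τ ∈ T, Pr {β | v ∈ S' τ i β} ≤
          Pr {β | (v.1 - τ.1, v.2 - τ.2) ∈ S (R + 1) β} := by
        intro τ _
        have h2 : {β | v ∈ S' τ i β} = {β : V → Bool | (fun u => β (u.1 + τ.1, u.2 + τ.2)) ∈
            {γ : V → Bool | (v.1 - τ.1, v.2 - τ.2) ∈ S (min i (R + 1)) γ}} := by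
          ext β
          exact hmem τ i β v
        rw [h2, shp _ Ω ?_ τ.1 τ.2]
        · exact measureReal_mono (fun β hβ => hmono β (min_le_right _ _) hβ)
        · intro β β' hb
          show _ ∈ S _ β ↔ _ ∈ S _ β'
          rw [hdep _ β β' hb]
      refine (sum_le_sum h1).trans ?_
      have hinj : Set.InjOn (fun τ : V => ((v.1 - τ.1, v.2 - τ.2) : V)) (T : Set V) := by
        intro a _ b _ hab
        simp only [Prod.mk.injEq] at hab
        exact Prod.ext (by omega) (by omega)
      rw [← sum_image (f := fun u => Pr {β | u ∈ S (R + 1) β}) hinj]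
      refine sum_le_sum_of_subset_of_nonneg ?_ fun _ _ _ => measureReal_nonneg
      intro u hu
      rw [mem_image] at hu
      obtain ⟨τ, hτ, rfl⟩ := hu
      exact hU v hv τ hτ
    have main := env V T S' (T.biUnion fun τ => shf τ Ω) Λ z _ E R hE hR hN
    have hset : ∀ τ ∈ T, Pr (E ∩ {β | (z.1 - τ.1, z.2 - τ.2) ∈
        S (R + 1) (fun v => β (v.1 + τ.1, v.2 + τ.2))}) = Pr (E ∩ {β | z ∈ S' τ (R + 1) β}) := by
      intro τ _
      have h2 : {β | z ∈ S' τ (R + 1) β} = {β : V → Bool | (z.1 - τ.1, z.2 - τ.2) ∈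
          S (R + 1) (fun v => β (v.1 + τ.1, v.2 + τ.2))} := by
        ext β
        have h3 := hmem τ (R + 1) β z
        rw [min_self] at h3
        exact h3
      rw [h2]
    rw [sum_congr rfl hset]
    refine main.trans ?_
    have hN0 : 0 ≤ ∑ v ∈ U, Pr {β | v ∈ S (R + 1) β} := sum_nonneg fun _ _ => measureReal_nonneg
    have hE0 : 0 ≤ Pr E := measureReal_nonneg
    have hE1 : Pr E ≤ 1 := measureReal_le_one
    have hL : 0 ≤ Real.log (1 / Pr E) := by
      rcases hE0.eq_or_lt with h | h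
      · simp [← h]
      · exact Real.log_nonneg (by rw [le_div_iff₀ h, one_mul]; exact hE1)
    have hT0 : (0 : ℝ) ≤ #T := Nat.cast_nonneg _
    have hΛ0 : (0 : ℝ) ≤ #Λ := Nat.cast_nonneg _
    have hlog : Real.log (#Λ + 3) ≤ Real.log (#T + #Λ + 3) :=
      Real.log_le_log (by positivity) (by linarith)
    have hlog0 : 0 ≤ Real.log (#Λ + 3) := Real.log_nonneg (by linarith)
    have hR0 : (0 : ℝ) ≤ R := Nat.cast_nonneg R
    have hb : 68 * (Real.log (1 / Pr E) + 3 * (R + 1) * Real.log (#Λ + 3)) ≤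
        204 * ((R : ℝ) + 1) * (Real.log (1 / Pr E) + Real.log (#T + #Λ + 3)) := by
      nlinarith [mul_nonneg hR0 hL, mul_nonneg hR0 (sub_nonneg.2 hlog)]
    calc Pr E * ((∑ v ∈ U, Pr {β | v ∈ S (R + 1) β}) *
          (68 * (Real.log (1 / Pr E) + 3 * (R + 1) * Real.log (#Λ + 3))) ^ R)
        ≤ Pr E * ((∑ v ∈ U, Pr {β | v ∈ S (R + 1) β}) *
          (204 * ((R : ℝ) + 1) * (Real.log (1 / Pr E) + Real.log (#T + #Λ + 3))) ^ R) := by
          gcongr
      _ = _ := by rw [mul_pow]; ring

end TP.TW
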